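import Pool.Agent.ZPK.StmtsT

/-!
# ZPK, row TPL: two large coordinates
-/

set_option autoImplicit false

namespace Pool.Agent.ZPK.H47

open Polynomial Pool.Agent.ZPT Pool.Agent.ZP3

section Tools

variable {K : Type} [NormedField K] [IsUltrametricDist K]

theorem norm_add_le {x y : K} {r : ℝ} (hx : ‖x‖ ≤ r) (hy : ‖y‖ ≤ r) : ‖x + y‖ ≤ r :=
  (IsUltrametricDist.norm_add_le_max x y).trans (max_le hx hy)

theorem norm_sub_le' {x y : K} {r : ℝ} (hx : ‖x‖ ≤ r) (hy : ‖y‖ ≤ r) : ‖x - y‖ ≤ r := by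
  rw [sub_eq_add_neg]
  exact norm_add_le hx (by rwa [norm_neg])

/-- powers of elements near one -/
theorem pow_near {x : K} {r : ℝ} (hr1 : r ≤ 1) (h : ‖x - 1‖ ≤ r) (n : ℕ) :
    ‖x ^ n - 1‖ ≤ r := by
  have hx : ‖x‖ ≤ 1 := by
    have e : x = (x - 1) + 1 := by ring
    rw [e]
    exact norm_add_le (h.trans hr1) (by rw [norm_one])
  have hr0 : 0 ≤ r := (norm_nonneg _).trans h
  induction n with
  | zero => rw [pow_zero, sub_self, norm_zero]; exact hr0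
  | succ n ih =>
    have e : x ^ (n + 1) - 1 = x ^ n * (x - 1) + (x ^ n - 1) := by ring
    rw [e]
    refine norm_add_le ?_ ih
    rw [norm_mul, norm_pow]
    calc ‖x‖ ^ n * ‖x - 1‖ ≤ 1 * r :=
          mul_le_mul (pow_le_one₀ (norm_nonneg _) hx) h (norm_nonneg _) zero_le_one
      _ = r := one_mul r

omit [IsUltrametricDist K] in
theorem norm_ro {ζ : K} (h : Ro ζ) : ‖ζ‖ = 1 := by
  obtain ⟨M, hM, h⟩ := h
  have h1 : ‖ζ‖ ^ M = 1 := by rw [← norm_pow, h, norm_one]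
  exact (pow_eq_one_iff_of_nonneg (norm_nonneg _) (by omega)).1 h1

end Tools

/-- exponents of equal powers -/
theorem exp_eq {r : ℝ} (h0 : 0 < r) (h1 : r < 1) {a b : ℕ} (h : r ^ a = r ^ b) : a = b :=
  pow_right_injective₀ h0 h1.ne h

/-- **TPL** -/
theorem tpl (hURR : ZP3.URRStmt) (hURT : ZP3.URTStmt) (hMTH : ZP3.MTHStmt) (hUNV : UnvStmt)
    (_hNUM : NumStmt) (hRNL : RnlStmt) : TplStmt := by
  intro U hU p E hp hE hpE K _ _ _ _ _ hK L hL e₁ e₂ A₁ A₂ g₁ g₂ hC₁ hC₂ he₁ he₁₂ he₂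
  have hp5 : 5 ≤ p := by nlinarith
  have hEp : E < p := by nlinarith
  obtain ⟨hr1, -, -, -, hr5⟩ := hURR p hp K hK
  obtain ⟨-, ht2⟩ := hURT p hp K hK
  obtain ⟨hu1, -⟩ := hUNV p hp K hK L hL
  have hA1 : ‖A₁ 0‖ = 1 := hC₁.A0 he₁
  have hA2 : ‖A₂ 0‖ = 1 := hC₂.A0 (he₁.trans he₁₂)
  have hA1n : A₁ 0 ≠ 0 := by
    intro h; rw [h, norm_zero] at hA1; exact zero_ne_one hA1
  have hA2n : A₂ 0 ≠ 0 := by
    intro h; rw [h, norm_zero] at hA2; exact zero_ne_one hA2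
  rcases Nat.lt_or_ge e₁ e₂ with hlt | hge
  · -- different exponents
    have he2p : ¬ p ∣ e₂ := Nat.not_dvd_of_pos_of_lt (by omega) (by omega)
    obtain ⟨b, hb⟩ := IsAlgClosed.exists_pow_nat_eq (A₂ 0 ^ e₁) (n := e₂) (by omega)
    have hbn : ‖b‖ = 1 := by
      have h1 : ‖b‖ ^ e₂ = 1 := by rw [← norm_pow, hb, norm_pow, hA2, one_pow]
      exact (pow_eq_one_iff_of_nonneg (norm_nonneg _) (by omega)).1 h1
    have hb0 : b ≠ 0 := by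
      intro h; rw [h, norm_zero] at hbn; exact zero_ne_one hbn
    have hbU : Uu p b := by
      refine ht2 b e₂ (by omega) he2p hbn ?_
      rw [hb]
      exact hu1 _ (pow_mem (hC₂.An 0) _) (by rw [norm_pow, hA2, one_pow])
    have hbi := hr5 b hbU
    have hA1U : Ur p (A₁ 0) := hu1 _ (hC₁.An 0) hA1.le
    refine ⟨A₁ 0 / b, ⟨?_, ?_⟩, ?_⟩
    · rw [div_eq_mul_inv]
      exact (hr1 _ _ hA1U hbi.1).2.1
    · rw [norm_div, hA1, hbn, div_one]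
    intro t q₁ q₂ ht0 hLa hq₁ hq₂ hDep
    obtain ⟨ht1, hn1, hF1, -⟩ := hRNL U hU p hp hp5 K hK L e₁ e₁ A₁ g₁ hC₁ he₁ le_rfl t q₁ ht0
      hLa hq₁
    obtain ⟨-, hn2, hF2, -⟩ := hRNL U hU p hp hp5 K hK L e₁ e₂ A₂ g₂ hC₂ he₁ he₁₂ t q₂ ht0
      hLa hq₂
    have hl0 : lL e₁ e₂ A₂ g₂ = 0 := if_neg (by omega)
    rw [hl0, zero_mul, add_zero] at hF2 ⊢
    obtain ⟨F₁, hF₁⟩ : ∃ F₁ : K, F₁ = t ^ e₁ * q₁⁻¹ / A₁ 0 := ⟨_, rfl⟩
    obtain ⟨F₂, hF₂⟩ : ∃ F₂ : K, F₂ = t ^ e₂ * q₂⁻¹ / A₂ 0 := ⟨_, rfl⟩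
    rw [← hF₁] at hF1
    rw [← hF₂] at hF2
    have hq10 : q₁ ≠ 0 := norm_pos_iff.1 hq₁.q0
    have hq20 : q₂ ≠ 0 := norm_pos_iff.1 hq₂.q0
    have htn : t ≠ 0 := norm_pos_iff.1 ht0
    obtain ⟨f, hf, hf1⟩ := hMTH p hp K hK e₂ (F₂ ^ e₁) 1 ‖t‖ (by omega) he2p one_ne_zero ht1 (by
      rw [one_pow, norm_one, mul_one]
      exact pow_near ht1.le hF2 e₁)
    rw [norm_one, mul_one] at hf1
    have hF2n : F₂ ≠ 0 := by
      rw [hF₂]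
      exact div_ne_zero (mul_ne_zero (pow_ne_zero _ htn) (inv_ne_zero hq20)) hA2n
    have hf0 : f ≠ 0 := by
      intro h
      rw [h, zero_pow (by omega)] at hf
      exact pow_ne_zero _ hF2n hf.symm
    -- the root of unity
    obtain ⟨ζ, hζ⟩ : ∃ ζ : K, ζ = A₁ 0 * F₁ / (b * f) := ⟨_, rfl⟩
    have hζ2 : ζ ^ e₂ = q₂ ^ e₁ / q₁ ^ e₂ := by
      have h1 : A₁ 0 * F₁ = t ^ e₁ * q₁⁻¹ := by rw [hF₁]; field_simp
      have h2 : A₂ 0 * F₂ = t ^ e₂ * q₂⁻¹ := by rw [hF₂]; field_simp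
      rw [hζ, div_pow, mul_pow b f, hb, hf, ← mul_pow (A₂ 0), h1, h2, mul_pow, mul_pow, ← pow_mul,
        ← pow_mul, mul_comm e₂ e₁]
      have ht' : t ^ (e₁ * e₂) ≠ 0 := pow_ne_zero _ htn
      rw [inv_pow, inv_pow]
      field_simp
    obtain ⟨a, c, ha, hc, hac⟩ := hDep
    have hexp : e₁ * a = e₂ * c := by
      have h1 : (‖t‖ ^ e₁) ^ a = (‖t‖ ^ e₂) ^ c := by
        rw [← hn1, ← hn2, ← norm_pow, ← norm_pow, hac]
      rw [← pow_mul, ← pow_mul] at h1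
      exact exp_eq ht0 ht1 h1
    have hRo : Ro ζ := by
      refine ⟨e₂ * c, Nat.mul_pos (by omega) hc, ?_⟩
      rw [pow_mul, hζ2, div_pow, ← pow_mul, ← pow_mul, ← hexp, mul_comm e₁ c, pow_mul, ← hac,
        ← pow_mul, mul_comm a e₁, div_self (pow_ne_zero _ hq10)]
    have hζn : ‖ζ‖ = 1 := norm_ro hRo
    refine ⟨ζ, hRo, ?_, ?_⟩
    · have e1 : A₁ 0 / b * F₁ = ζ * f := by
        rw [hζ]; field_simp
      have e2 : A₁ 0 / b * (1 + lL e₁ e₁ A₁ g₁ * (t ^ e₁ / p)) - ζ * 1 =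
          ζ * (f - 1) - A₁ 0 / b * (F₁ - (1 + lL e₁ e₁ A₁ g₁ * (t ^ e₁ / p))) := by
        rw [mul_sub, mul_sub, e1]; ring
      rw [e2]
      refine norm_sub_le' ?_ ?_
      · rw [norm_mul, hζn, one_mul]; exact hf1
      · rw [norm_mul, norm_div, hA1, hbn, div_one, one_mul]; exact hF1
    · intro M _ hM
      have h1 : (q₂ ^ e₁ / q₁ ^ e₂) ^ M = 1 := by
        rw [← hζ2, ← pow_mul, mul_comm, pow_mul, hM, one_pow]
      rw [div_pow, div_eq_one_iff_eq (pow_ne_zero _ (pow_ne_zero _ hq10)), ← pow_mul,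
        ← pow_mul] at h1
      exact h1.symm
  · -- equal exponents
    have hee : e₂ = e₁ := le_antisymm hge he₁₂
    subst hee
    refine ⟨A₁ 0 / A₂ 0, ⟨?_, ?_⟩, ?_⟩
    · exact hu1 _ (div_mem (hC₁.An 0) (hC₂.An 0)) (by rw [norm_div, hA1, hA2, div_one])
    · rw [norm_div, hA1, hA2, div_one]
    intro t q₁ q₂ ht0 hLa hq₁ hq₂ hDep
    obtain ⟨ht1, hn1, hF1, -⟩ := hRNL U hU p hp hp5 K hK L e₂ e₂ A₁ g₁ hC₁ he₁ le_rfl t q₁ ht0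
      hLa hq₁
    obtain ⟨-, hn2, hF2, -⟩ := hRNL U hU p hp hp5 K hK L e₂ e₂ A₂ g₂ hC₂ he₁ le_rfl t q₂ ht0
      hLa hq₂
    obtain ⟨F₁, hF₁⟩ : ∃ F₁ : K, F₁ = t ^ e₂ * q₁⁻¹ / A₁ 0 := ⟨_, rfl⟩
    obtain ⟨F₂, hF₂⟩ : ∃ F₂ : K, F₂ = t ^ e₂ * q₂⁻¹ / A₂ 0 := ⟨_, rfl⟩
    rw [← hF₁] at hF1
    rw [← hF₂] at hF2
    have hq10 : q₁ ≠ 0 := norm_pos_iff.1 hq₁.q0
    have hq20 : q₂ ≠ 0 := norm_pos_iff.1 hq₂.q0
    obtain ⟨a, c, ha, hc, hac⟩ := hDep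
    have hexp : a = c := by
      have h1 : (‖t‖ ^ e₂) ^ a = (‖t‖ ^ e₂) ^ c := by
        rw [← hn1, ← norm_pow, hn1, ← hn2, ← norm_pow, hac]
      refine exp_eq (pow_pos ht0 e₂) (pow_lt_one₀ ht0.le ht1 (by omega)) h1
    subst hexp
    have hRo : Ro (q₂ / q₁) := ⟨a, ha, by
      rw [div_pow, ← hac, div_self (pow_ne_zero _ hq10)]⟩
    refine ⟨q₂ / q₁, hRo, ?_, ?_⟩
    · have hζn : ‖q₂ / q₁‖ = 1 := norm_ro hRo
      have e1 : A₁ 0 / A₂ 0 * F₁ = q₂ / q₁ * F₂ := by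
        rw [hF₁, hF₂]; field_simp
      have e2 : A₁ 0 / A₂ 0 * (1 + lL e₂ e₂ A₁ g₁ * (t ^ e₂ / p)) -
          q₂ / q₁ * (1 + lL e₂ e₂ A₂ g₂ * (t ^ e₂ / p)) =
          q₂ / q₁ * (F₂ - (1 + lL e₂ e₂ A₂ g₂ * (t ^ e₂ / p))) -
          A₁ 0 / A₂ 0 * (F₁ - (1 + lL e₂ e₂ A₁ g₁ * (t ^ e₂ / p))) := by
        rw [mul_sub, mul_sub, e1]; ring
      rw [e2]
      refine norm_sub_le' ?_ ?_
      · rw [norm_mul, hζn, one_mul]; exact hF2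
      · rw [norm_mul, norm_div, hA1, hA2, div_one, one_mul]; exact hF1
    · intro M _ hM
      rw [div_pow, div_eq_one_iff_eq (pow_ne_zero _ hq10)] at hM
      rw [mul_comm e₂ M, pow_mul, pow_mul, hM]

end Pool.Agent.ZPK.H47
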